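import Mathlib

/-!
For every `k ≥ 2`, the property that every vertex of `ℕ` has degree at least `k` is
`∞`-elusive: Seeker has no winning strategy in the Seeker-Hider game.
-/

set_option autoImplicit false

namespace Pool.Agent.Results.MP_3b52ff_co.MinDegree

open Finset

/-- The history before turn `n` of the run in which Seeker chooses the pairs `e 0, e 1, …` and
Hider colours `e n` green if `c n = true` and red otherwise (latest turn first). -/
def hist (e : ℕ → Sym2 ℕ) (c : ℕ → Bool) : ℕ → List (Sym2 ℕ × Bool)
  | 0 => []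
  | n + 1 => (e n, c n) :: hist e c n

/-- Seeker's choices are legal: at every turn he picks a pair of distinct vertices that is still
white. -/
def Legal (e : ℕ → Sym2 ℕ) : Prop :=
  (∀ n, ¬ (e n).IsDiag) ∧ ∀ m n, m < n → e m ≠ e n

/-- The graph of green pairs at the end of the run. -/
def green (e : ℕ → Sym2 ℕ) (c : ℕ → Bool) : SimpleGraph ℕ :=
  SimpleGraph.fromEdgeSet {p | ∃ n, e n = p ∧ c n = true}

/-- The graph of pairs that are white at the end of the run. -/
def white (e : ℕ → Sym2 ℕ) : SimpleGraph ℕ := SimpleGraph.fromEdgeSet {p | ∀ n, e n ≠ p}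

/-- Seeker wins the run: some pair is white at the end, and either all graphs between the green
graph and the graph of green and white pairs have the property, or none of them has it. -/
def SeekerWins (S : Set (SimpleGraph ℕ)) (e : ℕ → Sym2 ℕ) (c : ℕ → Bool) : Prop :=
  (white e).edgeSet.Nonempty ∧
    ((∀ H : SimpleGraph ℕ, green e c ≤ H → H ≤ green e c ⊔ white e → H ∈ S) ∨
      (∀ H : SimpleGraph ℕ, green e c ≤ H → H ≤ green e c ⊔ white e → H ∉ S))

/-- A winning strategy for Seeker: a function `σ` from histories to pairs such that in every run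
in which Seeker follows `σ`, all his choices are legal and he wins. -/
def WinningStrategy (S : Set (SimpleGraph ℕ)) (σ : List (Sym2 ℕ × Bool) → Sym2 ℕ) : Prop :=
  ∀ (e : ℕ → Sym2 ℕ) (c : ℕ → Bool), (∀ n, e n = σ (hist e c n)) →
    Legal e ∧ SeekerWins S e c

/-- The property `S` is `∞`-elusive: Seeker has no winning strategy. -/
def InfElusive (S : Set (SimpleGraph ℕ)) : Prop :=
  ¬ ∃ σ : List (Sym2 ℕ × Bool) → Sym2 ℕ, WinningStrategy S σ

/-- The property that every vertex has degree at least `k`. -/
def D (k : ℕ) : Set (SimpleGraph ℕ) := {H | ∀ v, (k : ℕ∞) ≤ (H.neighborSet v).encard}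

/-! ### Hider's strategy -/

/-- Number of pairs asked so far whose larger element is `a`. -/
def up (L : List (Sym2 ℕ × Bool)) (a : ℕ) : ℕ := L.countP fun p => p.1.sup = a

/-- Number of green pairs so far whose smaller element is `a`. -/
def gl (L : List (Sym2 ℕ × Bool)) (a : ℕ) : ℕ := L.countP fun p => p.2 = true ∧ p.1.inf = a

/-- Number of green pairs so far whose larger element is `a`. -/
def gh (L : List (Sym2 ℕ × Bool)) (a : ℕ) : ℕ := L.countP fun p => p.2 = true ∧ p.1.sup = a

/-- Vertex `a` still wants a green pair to a larger vertex. -/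
def Want (k : ℕ) (L : List (Sym2 ℕ × Bool)) (a : ℕ) : Prop :=
  (a - up L a = 0 → gl L a + gh L a < k) ∧ (a - up L a = 1 → gl L a + gh L a < k - 1) ∧
    (2 ≤ a - up L a → gl L a < k - 2)

instance (k : ℕ) (L : List (Sym2 ℕ × Bool)) (a : ℕ) : Decidable (Want k L a) := by
  unfold Want
  infer_instance

/-- Hider's answer. -/
def answer (k : ℕ) (L : List (Sym2 ℕ × Bool)) (p : Sym2 ℕ) : Bool :=
  decide (2 * k * (p.inf + 1) ≤ p.sup ∧ gh L p.sup = 0 ∧ Want k L p.inf)

/-- The play of a Seeker strategy against Hider's strategy. -/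
def play (σ : List (Sym2 ℕ × Bool) → Sym2 ℕ) (k : ℕ) : ℕ → List (Sym2 ℕ × Bool)
  | 0 => []
  | n + 1 => (σ (play σ k n), answer k (play σ k n) (σ (play σ k n))) :: play σ k n

lemma hist_eq_play (σ : List (Sym2 ℕ × Bool) → Sym2 ℕ) (k n : ℕ) :
    hist (fun n => σ (play σ k n)) (fun n => answer k (play σ k n) (σ (play σ k n))) n
      = play σ k n := by
  induction n with
  | zero => rfl
  | succ n ih => rw [hist, play, ih]

section counts

variable {e : ℕ → Sym2 ℕ} {c : ℕ → Bool}

lemma countP_hist (P : Sym2 ℕ × Bool → Bool) (n : ℕ) :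
    (hist e c n).countP P = ((range n).filter fun i => P (e i, c i) = true).card := by
  induction n with
  | zero => simp [hist]
  | succ n ih =>
    rw [hist, List.countP_cons, ih, Finset.range_add_one, Finset.filter_insert]
    split_ifs with h
    · rw [Finset.card_insert_of_notMem (by simp)]
    · simp

lemma up_eq (n a : ℕ) : up (hist e c n) a = ((range n).filter fun i => (e i).sup = a).card := by
  rw [up, countP_hist]
  simp

lemma gl_eq (n a : ℕ) : gl (hist e c n) a
    = ((range n).filter fun i => c i = true ∧ (e i).inf = a).card := by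
  rw [gl, countP_hist]
  simp

lemma gh_eq (n a : ℕ) : gh (hist e c n) a
    = ((range n).filter fun i => c i = true ∧ (e i).sup = a).card := by
  rw [gh, countP_hist]
  simp

lemma inj_of_legal (he : Legal e) : Function.Injective e := by
  intro i j hij
  rcases lt_trichotomy i j with h | h | h
  · exact absurd hij (he.2 i j h)
  · exact h
  · exact absurd hij.symm (he.2 j i h)

lemma inf_lt_sup {p : Sym2 ℕ} (hp : ¬ p.IsDiag) : p.inf < p.sup := by
  induction p using Sym2.ind with
  | _ a b =>
    simp only [Sym2.mk_isDiag_iff, Sym2.inf_mk, Sym2.sup_mk] at *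
    rcases lt_or_gt_of_ne hp with h | h
    · rw [inf_eq_left.2 h.le, sup_eq_right.2 h.le]
      exact h
    · rw [inf_eq_right.2 h.le, sup_eq_left.2 h.le]
      exact h

lemma eq_mk_inf_sup (p : Sym2 ℕ) : p = s(p.inf, p.sup) := by
  induction p using Sym2.ind with
  | _ a b =>
    simp only [Sym2.inf_mk, Sym2.sup_mk]
    rcases le_total a b with h | h
    · rw [inf_eq_left.2 h, sup_eq_right.2 h]
    · rw [inf_eq_right.2 h, sup_eq_left.2 h, Sym2.eq_swap]

lemma inf_mk_lt {x y : ℕ} (h : x < y) : (s(x, y) : Sym2 ℕ).inf = x := by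
  simp [h.le]

lemma sup_mk_lt {x y : ℕ} (h : x < y) : (s(x, y) : Sym2 ℕ).sup = y := by
  simp [h.le]

open Classical in
/-- The number of pairs asked before turn `n` with larger element `a` is the number of `b < a`
for which `{b, a}` was asked. -/
lemma up_card (he : Legal e) (n a : ℕ) : up (hist e c n) a
    = ((range a).filter fun b => ∃ i < n, e i = s(b, a)).card := by
  rw [up_eq]
  apply Finset.card_nbij (fun i => (e i).inf)
  · intro i hi
    rw [mem_coe, mem_filter, mem_range] at hi
    rw [mem_coe, mem_filter, mem_range]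
    have h := inf_lt_sup (he.1 i)
    rw [hi.2] at h
    refine ⟨h, i, hi.1, ?_⟩
    have := eq_mk_inf_sup (e i)
    rw [hi.2] at this
    exact this
  · intro i hi j hj hij
    rw [mem_coe, mem_filter] at hi hj
    apply inj_of_legal he
    rw [eq_mk_inf_sup (e i), eq_mk_inf_sup (e j), hi.2, hj.2]
    have : (e i).inf = (e j).inf := hij
    rw [this]
  · intro b hb
    rw [mem_coe, mem_filter, mem_range] at hb
    obtain ⟨hb1, i, hi, hei⟩ := hb
    refine ⟨i, ?_, ?_⟩
    · rw [mem_coe, mem_filter, mem_range, hei, sup_mk_lt hb1]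
      exact ⟨hi, rfl⟩
    · simp only [hei, inf_mk_lt hb1]

lemma up_lt (he : Legal e) {n x y : ℕ} (hxy : x < y) (h : ∀ i < n, e i ≠ s(x, y)) :
    up (hist e c n) y + 1 ≤ y := by
  classical
  rw [up_card he]
  have hsub : ((range y).filter fun b => ∃ i < n, e i = s(b, y)) ⊆ (range y).erase x := by
    intro b hb
    rw [mem_filter, mem_range] at hb
    rw [mem_erase, mem_range]
    refine ⟨?_, hb.1⟩
    rintro rfl
    obtain ⟨i, hi, hei⟩ := hb.2
    exact h i hi hei
  have := Finset.card_le_card hsub
  rw [Finset.card_erase_of_mem (by simpa using hxy), card_range] at this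
  omega

variable {k : ℕ}

lemma cond_of_true (hc : ∀ n, c n = answer k (hist e c n) (e n)) {n : ℕ} (h : c n = true) :
    2 * k * ((e n).inf + 1) ≤ (e n).sup ∧ gh (hist e c n) (e n).sup = 0 ∧
      Want k (hist e c n) (e n).inf := by
  rw [hc n] at h
  simpa [answer] using h

lemma cond_of_false (hc : ∀ n, c n = answer k (hist e c n) (e n)) {n : ℕ} (h : c n = false) :
    ¬ (2 * k * ((e n).inf + 1) ≤ (e n).sup ∧ gh (hist e c n) (e n).sup = 0 ∧
      Want k (hist e c n) (e n).inf) := by
  rw [hc n] at h
  simpa [answer] using h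

lemma up_succ (n a : ℕ) : up (hist e c (n + 1)) a
    = up (hist e c n) a + if (e n).sup = a then 1 else 0 := by
  rw [hist, up, List.countP_cons]
  simp [up]

lemma gl_succ (n a : ℕ) : gl (hist e c (n + 1)) a
    = gl (hist e c n) a + if c n = true ∧ (e n).inf = a then 1 else 0 := by
  rw [hist, gl, List.countP_cons]
  simp [gl]

lemma gh_succ (n a : ℕ) : gh (hist e c (n + 1)) a
    = gh (hist e c n) a + if c n = true ∧ (e n).sup = a then 1 else 0 := by
  rw [hist, gh, List.countP_cons]
  simp [gh]

/-- The invariants of Hider's strategy. -/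
lemma invariants (hk : 2 ≤ k) (he : Legal e) (hc : ∀ n, c n = answer k (hist e c n) (e n)) :
    ∀ n a, gh (hist e c n) a ≤ 1 ∧ gl (hist e c n) a ≤ k ∧
      (1 ≤ a - up (hist e c n) a → gl (hist e c n) a + gh (hist e c n) a ≤ k - 1) ∧
      (2 ≤ a - up (hist e c n) a → gl (hist e c n) a ≤ k - 2) := by
  intro n
  induction n with
  | zero =>
    intro a
    simp [hist, gh, gl]
  | succ n ih =>
    intro a
    obtain ⟨i1, i2, i3, i4⟩ := ih a
    have hlt := inf_lt_sup (he.1 n)
    have hup : up (hist e c n) (e n).sup + 1 ≤ (e n).sup := by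
      apply up_lt he hlt
      intro i hi h
      rw [← eq_mk_inf_sup] at h
      exact he.2 i n hi h
    rw [up_succ, gl_succ, gh_succ]
    by_cases hcn : c n = true
    · obtain ⟨h1, h2, h3, h4, h5⟩ := cond_of_true hc hcn
      by_cases ha : (e n).inf = a
      · have hb : ¬ (e n).sup = a := by omega
        rw [ha] at h3 h4 h5
        simp only [hcn, ha, hb, and_true, and_false, if_true, if_false]
        refine ⟨by omega, ?_, ?_, ?_⟩
        · rcases Nat.lt_or_ge (a - up (hist e c n) a) 1 with h | h
          · have := h3 (by omega)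
            omega
          · rcases Nat.lt_or_ge (a - up (hist e c n) a) 2 with h' | h'
            · have := h4 (by omega)
              omega
            · have := h5 h'
              omega
        · intro h
          rcases Nat.lt_or_ge (a - up (hist e c n) a) 2 with h' | h'
          · have := h4 (by omega)
            omega
          · have := h5 h'
            omega
        · intro h
          have := h5 (by omega)
          omega
      · by_cases hb : (e n).sup = a
        · rw [hb] at h2 hup
          simp only [hcn, ha, hb, and_true, and_false, if_true, if_false]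
          refine ⟨by omega, by omega, ?_, ?_⟩
          · intro h
            have := i4 (by omega)
            omega
          · intro h
            have := i4 (by omega)
            omega
        · simp only [ha, hb, and_false, if_false]
          exact ⟨by omega, by omega, fun h => by have := i3 (by omega); omega,
            fun h => by have := i4 (by omega); omega⟩
    · simp only [hcn, Bool.false_eq_true, false_and, if_false]
      refine ⟨by omega, by omega, ?_, ?_⟩
      · intro h
        split_ifs at h with hb
        · have := i4 (by omega)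
          omega
        · have := i3 (by omega)
          omega
      · intro h
        have := i4 (by split_ifs at h <;> omega)
        omega

lemma gh_mono (he : Legal e) {m n : ℕ} (h : m ≤ n) (a : ℕ) :
    gh (hist e c m) a ≤ gh (hist e c n) a := by
  have _ := he
  rw [gh_eq, gh_eq]
  apply Finset.card_le_card
  intro i hi
  rw [mem_filter, mem_range] at *
  exact ⟨by omega, hi.2⟩

/-- Infinitely many vertices never become the larger element of a green pair. -/
lemma unused (hk : 2 ≤ k) (he : Legal e) (hc : ∀ n, c n = answer k (hist e c n) (e n)) (M : ℕ) :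
    ∃ u, M ≤ u ∧ ∀ n, gh (hist e c n) u = 0 := by
  by_contra hcon
  push Not at hcon
  have h1 : ∀ u, M ≤ u → ∃ i, c i = true ∧ (e i).sup = u := by
    intro u hu
    obtain ⟨n, hn⟩ := hcon u hu
    rw [gh_eq] at hn
    obtain ⟨i, hi⟩ := Finset.card_pos.1 (Nat.pos_of_ne_zero hn)
    rw [mem_filter] at hi
    exact ⟨i, hi.2⟩
  choose! i hi1 hi2 using h1
  set N := 2 * k * (M + 1) with hN
  set T := (Finset.Ico M N).sup i + 1 with hT
  have hmaps : ∀ u ∈ Finset.Ico M N, (e (i u)).inf ∈ range M := by
    intro u hu
    rw [mem_Ico] at hu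
    obtain ⟨h1, -, -⟩ := cond_of_true hc (hi1 u hu.1)
    rw [hi2 u hu.1] at h1
    rw [mem_range]
    have h2 : 2 * k * ((e (i u)).inf + 1) < 2 * k * (M + 1) := by omega
    have h3 := lt_of_mul_lt_mul_left h2 (Nat.zero_le _)
    omega
  have hfib : ∀ b ∈ range M, ((Finset.Ico M N).filter fun u => (e (i u)).inf = b).card ≤ k := by
    intro b _
    refine le_trans ?_ (invariants hk he hc T b).2.1
    rw [gl_eq]
    apply Finset.card_le_card_of_injOn i
    · intro u hu
      rw [mem_coe, mem_filter, mem_Ico] at hu
      rw [mem_coe, mem_filter, mem_range]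
      refine ⟨?_, hi1 u hu.1.1, hu.2⟩
      have : i u ≤ (Finset.Ico M N).sup i := Finset.le_sup (mem_Ico.2 hu.1)
      omega
    · intro u hu v hv huv
      rw [mem_coe, mem_filter, mem_Ico] at hu hv
      rw [← hi2 u hu.1.1, ← hi2 v hv.1.1, huv]
  have := Finset.card_le_mul_card_image_of_maps_to hmaps k hfib
  rw [Nat.card_Ico, card_range] at this
  have h4 : N = k * M + k * M + 2 * k := by rw [hN]; ring
  have h5 : M ≤ k * M := Nat.le_mul_of_pos_left M (by omega)
  omega

lemma green_adj {x y : ℕ} : (green e c).Adj x y ↔ (∃ n, e n = s(x, y) ∧ c n = true) ∧ x ≠ y := by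
  simp [green]

lemma white_adj {x y : ℕ} : (white e).Adj x y ↔ (∀ n, e n ≠ s(x, y)) ∧ x ≠ y := by
  simp [white]

/-- If a pair `{x, y}` with `x < y` stays white then `y` has green degree less than `k`. -/
lemma small_degree (hk : 2 ≤ k) (he : Legal e) (hc : ∀ n, c n = answer k (hist e c n) (e n))
    {x y : ℕ} (hxy : x < y) (hw : ∀ n, e n ≠ s(x, y)) :
    ¬ (k : ℕ∞) ≤ ((green e c).neighborSet y).encard := by
  classical
  intro hle
  obtain ⟨T, hT, hTc⟩ := Set.exists_subset_encard_eq hle
  have hfin : T.Finite := Set.finite_of_encard_eq_coe hTc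
  have h1 : ∀ w ∈ T, ∃ n, e n = s(y, w) ∧ c n = true := by
    intro w hwT
    have := hT hwT
    rw [SimpleGraph.mem_neighborSet, green_adj] at this
    exact this.1
  choose! i hi1 hi2 using h1
  set F := hfin.toFinset with hF
  have hFc : F.card = k := by
    rw [hfin.encard_eq_coe_toFinset_card] at hTc
    exact_mod_cast hTc
  set N := F.sup i + 1 with hN
  have hne : ∀ w ∈ T, y ≠ w := by
    intro w hwT
    have := hT hwT
    rw [SimpleGraph.mem_neighborSet, green_adj] at this
    exact this.2
  have hcard : F.card ≤ gl (hist e c N) y + gh (hist e c N) y := by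
    rw [gl_eq, gh_eq]
    refine le_trans ?_ (Finset.card_union_le _ _)
    apply Finset.card_le_card_of_injOn i
    · intro w hwF
      rw [mem_coe, hF, Set.Finite.mem_toFinset] at hwF
      have hiN : i w < N := by
        have : i w ≤ F.sup i := Finset.le_sup (hfin.mem_toFinset.2 hwF)
        omega
      rw [mem_coe, mem_union, mem_filter, mem_filter, mem_range, hi1 w hwF]
      rcases lt_or_gt_of_ne (hne w hwF) with h | h
      · left
        exact ⟨hiN, hi2 w hwF, inf_mk_lt h⟩
      · right
        refine ⟨hiN, hi2 w hwF, ?_⟩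
        rw [Sym2.eq_swap, sup_mk_lt h]
    · intro w hwF v hvF hwv
      rw [mem_coe, hF, Set.Finite.mem_toFinset] at hwF hvF
      have h2 := hi1 w hwF
      rw [hwv, hi1 v hvF] at h2
      have h3 := Sym2.congr_right.1 h2
      exact h3.symm
  have hup : up (hist e c N) y + 1 ≤ y := up_lt he hxy (fun i _ => hw i)
  have := (invariants hk he hc N y).2.2.1 (by omega)
  omega

/-- In the graph of green and white pairs, every vertex has degree at least `k`. -/
lemma large_degree (hk : 2 ≤ k) (he : Legal e) (hc : ∀ n, c n = answer k (hist e c n) (e n))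
    (a : ℕ) : (k : ℕ∞) ≤ ((green e c ⊔ white e).neighborSet a).encard := by
  classical
  by_contra hlt
  rw [not_le] at hlt
  have hfin : ((green e c ⊔ white e).neighborSet a).Finite :=
    Set.finite_of_encard_le_coe hlt.le
  -- the white pairs below `a`
  set B := (range a).filter (fun b => ∀ n, e n ≠ s(b, a)) with hB
  -- a time after which no pair below `a` is asked
  have hT : ∀ b, ∃ i, (∃ n, e n = s(b, a)) → e i = s(b, a) := by
    intro b
    by_cases h : ∃ n, e n = s(b, a)
    · obtain ⟨n, hn⟩ := h
      exact ⟨n, fun _ => hn⟩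
    · exact ⟨0, fun h' => absurd h' h⟩
  choose τ hτ using hT
  set T := (range a).sup τ + 1 with hTdef
  -- a large unused vertex
  set M := (hfin.toFinset.sup id) + (range T).sup (fun i => (e i).sup) + 2 * k * (a + 1) + a + 1
    with hM
  obtain ⟨u, hu, hunused⟩ := unused hk he hc M
  have hau : a < u := by omega
  have hunot : ¬ (green e c ⊔ white e).Adj a u := by
    intro h
    have : u ≤ hfin.toFinset.sup id := by
      have h1 : u ∈ hfin.toFinset := by
        rw [Set.Finite.mem_toFinset]
        exact h
      exact Finset.le_sup (f := id) h1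
    omega
  have hasked : ∃ t, e t = s(a, u) := by
    by_contra hno
    push Not at hno
    apply hunot
    right
    rw [white_adj]
    exact ⟨hno, hau.ne⟩
  obtain ⟨t, ht⟩ := hasked
  have htT : T ≤ t := by
    by_contra hlt
    rw [not_le] at hlt
    have h1 : (e t).sup ≤ (range T).sup (fun i => (e i).sup) :=
      Finset.le_sup (f := fun i => (e i).sup) (mem_range.2 hlt)
    rw [ht, sup_mk_lt hau] at h1
    omega
  have hct : c t = false := by
    by_contra hcon
    have hcon' : c t = true := by simpa using hcon
    have h1 := hunused (t + 1)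
    rw [gh_succ, if_pos ⟨hcon', by rw [ht, sup_mk_lt hau]⟩] at h1
    omega
  have hnw : ¬ Want k (hist e c t) a := by
    have h1 := cond_of_false hc hct
    rw [ht, sup_mk_lt hau, inf_mk_lt hau] at h1
    intro hw
    exact h1 ⟨by omega, hunused t, hw⟩
  -- the number of white pairs below `a`
  have hupt : up (hist e c t) a + B.card = a := by
    rw [up_card he]
    have h1 : (range a).filter (fun b => ∃ i < t, e i = s(b, a))
        = (range a).filter (fun b => ¬ ∀ n, e n ≠ s(b, a)) := by
      ext b
      rw [mem_filter, mem_filter]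
      constructor
      · rintro ⟨hb, i, _, hi⟩
        exact ⟨hb, fun h => h i hi⟩
      · rintro ⟨hb, h⟩
        push Not at h
        refine ⟨hb, τ b, ?_, hτ b h⟩
        have : τ b ≤ (range a).sup τ := Finset.le_sup hb
        omega
    rw [h1, hB, add_comm, Finset.card_filter_add_card_filter_not, card_range]
  have hsum : k ≤ gl (hist e c t) a + gh (hist e c t) a + B.card := by
    unfold Want at hnw
    rw [not_and_or, not_and_or] at hnw
    rcases hnw with h | h | h <;> · push Not at h; omega
  -- the neighbours
  set XL := ((range t).filter fun i => c i = true ∧ (e i).inf = a).image (fun i => (e i).sup)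
    with hXL
  set XH := ((range t).filter fun i => c i = true ∧ (e i).sup = a).image (fun i => (e i).inf)
    with hXH
  have hXLc : XL.card = gl (hist e c t) a := by
    rw [gl_eq, hXL, Finset.card_image_of_injOn]
    intro i hi j hj hij
    rw [mem_coe, mem_filter] at hi hj
    apply inj_of_legal he
    rw [eq_mk_inf_sup (e i), eq_mk_inf_sup (e j), hi.2.2, hj.2.2]
    have : (e i).sup = (e j).sup := hij
    rw [this]
  have hXHc : XH.card = gh (hist e c t) a := by
    rw [gh_eq, hXH, Finset.card_image_of_injOn]
    intro i hi j hj hij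
    rw [mem_coe, mem_filter] at hi hj
    apply inj_of_legal he
    rw [eq_mk_inf_sup (e i), eq_mk_inf_sup (e j), hi.2.2, hj.2.2]
    have : (e i).inf = (e j).inf := hij
    rw [this]
  have hXLm : ∀ w ∈ XL, a < w ∧ (green e c).Adj a w := by
    intro w hw
    rw [hXL, mem_image] at hw
    obtain ⟨i, hi, rfl⟩ := hw
    rw [mem_filter] at hi
    have h1 := inf_lt_sup (he.1 i)
    have h2 := eq_mk_inf_sup (e i)
    rw [hi.2.2] at h1 h2
    exact ⟨h1, green_adj.2 ⟨⟨i, h2, hi.2.1⟩, h1.ne⟩⟩
  have hXHm : ∀ w ∈ XH, w < a ∧ (green e c).Adj a w := by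
    intro w hw
    rw [hXH, mem_image] at hw
    obtain ⟨i, hi, rfl⟩ := hw
    rw [mem_filter] at hi
    have h1 := inf_lt_sup (he.1 i)
    have h2 := eq_mk_inf_sup (e i)
    rw [hi.2.2] at h1 h2
    exact ⟨h1, green_adj.2 ⟨⟨i, by rw [Sym2.eq_swap]; exact h2, hi.2.1⟩, h1.ne'⟩⟩
  have hBm : ∀ w ∈ B, w < a ∧ (white e).Adj a w := by
    intro w hw
    rw [hB, mem_filter, mem_range] at hw
    refine ⟨hw.1, white_adj.2 ⟨?_, hw.1.ne'⟩⟩
    intro n hn
    rw [Sym2.eq_swap] at hn
    exact hw.2 n hn
  have hd1 : Disjoint XL (XH ∪ B) := by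
    rw [Finset.disjoint_left]
    intro w h1 h2
    have h3 := (hXLm w h1).1
    rcases mem_union.1 h2 with h | h
    · have := (hXHm w h).1
      omega
    · have := (hBm w h).1
      omega
  have hd2 : Disjoint XH B := by
    rw [Finset.disjoint_left]
    intro w h1 h2
    obtain ⟨⟨n, hn, -⟩, -⟩ := green_adj.1 (hXHm w h1).2
    exact (white_adj.1 (hBm w h2).2).1 n hn
  have hcardU : (XL ∪ (XH ∪ B)).card = gl (hist e c t) a + (gh (hist e c t) a + B.card) := by
    rw [Finset.card_union_of_disjoint hd1, Finset.card_union_of_disjoint hd2, hXLc, hXHc]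
  have hsub : ((XL ∪ (XH ∪ B) : Finset ℕ) : Set ℕ) ⊆ (green e c ⊔ white e).neighborSet a := by
    intro w hw
    rw [mem_coe, mem_union, mem_union] at hw
    rw [SimpleGraph.mem_neighborSet]
    rcases hw with h | h | h
    · exact Or.inl (hXLm w h).2
    · exact Or.inl (hXHm w h).2
    · exact Or.inr (hBm w h).2
  have h1 := Set.encard_le_encard hsub
  rw [Set.encard_coe_eq_coe_finsetCard, hcardU] at h1
  have h2 : (k : ℕ∞) ≤ ((gl (hist e c t) a + (gh (hist e c t) a + B.card) : ℕ) : ℕ∞) := by
    exact_mod_cast (by omega)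
  exact absurd (h2.trans h1) (not_le.2 hlt)

/-- Seeker loses every legal run in which Hider follows his strategy. -/
lemma hider_wins (hk : 2 ≤ k) (he : Legal e) (hc : ∀ n, c n = answer k (hist e c n) (e n)) :
    ¬ SeekerWins (D k) e c := by
  rintro ⟨⟨p, hp⟩, h⟩
  rcases h with h | h
  · have h1 := h (green e c) le_rfl le_sup_left
    induction p using Sym2.ind with
    | _ x y =>
      rw [SimpleGraph.mem_edgeSet, white_adj] at hp
      rcases lt_or_gt_of_ne hp.2 with hxy | hxy
      · exact small_degree hk he hc hxy hp.1 (h1 y)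
      · refine small_degree hk he hc hxy ?_ (h1 x)
        intro n hn
        rw [Sym2.eq_swap] at hn
        exact hp.1 n hn
  · exact h (green e c ⊔ white e) le_sup_left le_rfl (fun a => large_degree hk he hc a)

end counts

/-- For every `k ≥ 2` the property `D k` (every vertex has degree at least `k`) is
`∞`-elusive. -/
theorem result : ∀ k : ℕ, 2 ≤ k → InfElusive (D k) := by
  rintro k hk ⟨σ, hσ⟩
  set e : ℕ → Sym2 ℕ := fun n => σ (play σ k n) with he
  set c : ℕ → Bool := fun n => answer k (play σ k n) (σ (play σ k n)) with hcdef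
  have hh : ∀ n, hist e c n = play σ k n := fun n => hist_eq_play σ k n
  obtain ⟨hleg, hwin⟩ := hσ e c (fun n => by rw [hh n])
  refine hider_wins hk hleg (fun n => ?_) hwin
  rw [hh n]

end Pool.Agent.Results.MP_3b52ff_co.MinDegree
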